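import Pool.Agent.helper71.PQZ.Spec

/-!
# pqz:RED: reduction to points of the open unit interval
-/

open Filter Topology Set

set_option autoImplicit false

namespace Pool.Agent.PQZ

theorem RED_nat (g : GG) (x : ℚ) (n : ℕ) : ap g (x + n) = ap g x + n := by
  induction n with
  | zero => simp
  | succ n ih =>
    have h1 : x + ((n + 1 : ℕ) : ℚ) = (x + n) + 1 := by push_cast; ring
    rw [h1, ap_add_one, ih]
    push_cast
    ring

theorem RED_int (g : GG) (x : ℚ) (n : ℤ) : ap g (x + n) = ap g x + n := by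
  obtain ⟨m, rfl | rfl⟩ := n.eq_nat_or_neg
  · have h := RED_nat g x m
    push_cast
    exact h
  · have h := RED_nat g (x + ((-(m : ℤ) : ℤ) : ℚ)) m
    have h1 : x + ((-(m : ℤ) : ℤ) : ℚ) + (m : ℚ) = x := by push_cast; ring
    rw [h1] at h
    rw [h]
    push_cast
    ring

theorem RED_proof : RED_stmt := by
  intro F
  refine ⟨(F.image Int.fract).filter (fun x => x ≠ 0), ?_, ?_⟩
  · intro x hx
    obtain ⟨h1, h2⟩ := Finset.mem_filter.1 hx
    obtain ⟨y, -, rfl⟩ := Finset.mem_image.1 h1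
    exact ⟨lt_of_le_of_ne (Int.fract_nonneg y) (Ne.symm h2), Int.fract_lt_one y⟩
  · intro g h0 hF x hx
    have h1 : ap g (Int.fract x) = Int.fract x := by
      by_cases h : Int.fract x = 0
      · rw [h, h0]
      · exact hF _ (Finset.mem_filter.2 ⟨Finset.mem_image_of_mem _ hx, h⟩)
    have h2 : x = Int.fract x + ((⌊x⌋ : ℤ) : ℚ) := (Int.fract_add_floor x).symm
    rw [h2, RED_int, h1]

end Pool.Agent.PQZ
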