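import Pool.Agent.helper71.PQZ.Spec

/-!
# pqz:WL2: weak limits of close sequences are close
-/

open Filter Topology Set

set_option autoImplicit false

namespace Pool.Agent.PQZ

theorem WL2_proof : WL2_stmt := by
  intro E _ _ c c' u u' B hu hu' hB
  obtain ⟨φ, hφ1, hφ2⟩ := exists_dual_vector'' ℝ (u - u')
  have h1 : Tendsto (fun n => φ (c n) - φ (c' n)) (hyperfilter ℕ : Filter ℕ) (𝓝 (φ u - φ u')) :=
    (hu φ).sub (hu' φ)
  have h2 : φ u - φ u' = ‖u - u'‖ := by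
    rw [← map_sub, hφ2]
    simp
  rw [h2] at h1
  refine le_of_tendsto h1 (hB.mono fun n hn => ?_)
  rw [← map_sub]
  calc φ (c n - c' n) ≤ ‖φ (c n - c' n)‖ := Real.le_norm_self _
    _ ≤ ‖φ‖ * ‖c n - c' n‖ := φ.le_opNorm _
    _ ≤ 1 * ‖c n - c' n‖ := mul_le_mul_of_nonneg_right hφ1 (norm_nonneg _)
    _ ≤ B := by rw [one_mul]; exact hn

end Pool.Agent.PQZ
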